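import Pool.Agent.Q225.CofE

set_option autoImplicit false

namespace Pool.Agent.Results.MP_9cf723_co.ConingBetti

open Pool.Agent.Q225.Cof MvPolynomial

/-- the full triangle -/
def triangle : Complex2 (Fin 3) where
  faces := Finset.univ
  empty_mem := Finset.mem_univ _
  vertex_mem := fun _ => Finset.mem_univ _
  down_closed := fun _ _ _ _ => Finset.mem_univ _
  card_le := fun ψ _ => by
    have := Finset.card_le_univ ψ
    simpa using this

/-- three distinct collinear points -/
noncomputable def pts (i : Fin 3) : Fin 3 → ℝ := ![(i : ℝ), 0, 0]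

/-- the apex of the example -/
def apex : Fin 3 → ℝ := ![0, 1, 0]

theorem pts_general : GeneralPosition pts apex := by
  intro T _ hmem
  have h1 : affineSpan ℝ (pts '' T) ≤
      (LinearMap.ker (LinearMap.proj 1 : (Fin 3 → ℝ) →ₗ[ℝ] ℝ)).toAffineSubspace := by
    rw [affineSpan_le]
    rintro _ ⟨i, _, rfl⟩
    show (LinearMap.proj 1 : (Fin 3 → ℝ) →ₗ[ℝ] ℝ) (pts i) = 0
    simp [pts]
  have h2 : (LinearMap.proj 1 : (Fin 3 → ℝ) →ₗ[ℝ] ℝ) apex = 0 := h1 hmem
  simp [apex] at h2

theorem pts_dep : ¬ AffineIndependent ℝ (fun v : (Finset.univ : Finset (Fin 3)) => pts v) := by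
  intro hi
  have h1 := Wsub_bot pts apex pts_general Finset.univ (by simp) hi
  have h2 : (X 2 : P3) ∈ Wsub (conf pts apex) (insert ⊥ (up Finset.univ)) := by
    rw [mem_Wsub_wup, mem_Wsub]
    refine ⟨⟨isAff_X 2, fun v _ => ?_⟩, ?_⟩
    · simp [pts]
    · simp [apex]
  rw [h1, Submodule.mem_bot] at h2
  exact MvPolynomial.X_ne_zero 2 h2

/-- **Coning and Betti numbers of trivariate cofactor complexes.** Let `K` be a simplicial
2-complex, `p` any 3-configuration, `s ≥ 0`, and `pw` in general position relative to `p`.
(1) The Betti numbers in degrees `-1, 0, 1` of the cofactor complex with parameter `s` of `K` and of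
the one with parameter `s + 1` of the truncated cone are equal.
(2) In degree `2` the Betti number of the cone is larger by the sum of the dimensions of the spaces
`I^{s+1}` of the 3-simplices `w σ`, `σ` a 2-simplex of `K`.
(3) All Betti numbers agree if and only if the vertices of every 2-simplex of `K` are placed at
affinely independent points.
(4) So for every `s` the equality fails in degree `2` for a triangle with collinear vertices. -/
theorem result (s : ℕ) :
    (∀ (V : Type) [Fintype V] [LinearOrder V] (K : Complex2 V) (p : V → Fin 3 → ℝ)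
      (pw : Fin 3 → ℝ), GeneralPosition p pw →
      (∀ n ≤ 2, betti (cone K) (conf p pw) (s + 1) n = betti K p s n) ∧
      (betti (cone K) (conf p pw) (s + 1) 3 = betti K p s 3
        + ∑ σ ∈ K.faces.filter (fun σ => σ.card = 3),
          Module.finrank ℝ (I (s + 1) (conf p pw) (insert ⊥ (up σ)))) ∧
      ((∀ n ≤ 3, betti (cone K) (conf p pw) (s + 1) n = betti K p s n) ↔
        ∀ σ ∈ K.faces, σ.card = 3 → AffineIndependent ℝ (fun v : σ => p v))) ∧
    (GeneralPosition pts apex ∧
      betti (cone triangle) (conf pts apex) (s + 1) 3 ≠ betti triangle pts s 3) := by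
  have main : ∀ (V : Type) [Fintype V] [LinearOrder V] (K : Complex2 V) (p : V → Fin 3 → ℝ)
      (pw : Fin 3 → ℝ), GeneralPosition p pw →
      ((∀ n ≤ 3, betti (cone K) (conf p pw) (s + 1) n = betti K p s n) ↔
        ∀ σ ∈ K.faces, σ.card = 3 → AffineIndependent ℝ (fun v : σ => p v)) := by
    intro V _ _ K p pw h
    have h2 := betti_two K p pw h s
    constructor
    · intro h3 σ hσ hc
      rw [← finrank_eq_zero_iff p pw h s σ hc]
      have h4 := h3 3 le_rfl
      rw [h2] at h4
      have h5 : ∑ σ ∈ K.faces.filter (fun σ => σ.card = 3),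
          Module.finrank ℝ (I (s + 1) (conf p pw) (insert ⊥ (up σ))) = 0 := by omega
      exact (Finset.sum_eq_zero_iff.mp h5) σ (Finset.mem_filter.mpr ⟨hσ, hc⟩)
    · intro h3 n hn
      rcases Nat.lt_or_ge n 3 with h4 | h4
      · exact betti_eq K p pw h s n (by omega)
      · have h5 : n = 3 := by omega
        subst h5
        rw [h2, Finset.sum_eq_zero, add_zero]
        intro σ hσ
        rw [Finset.mem_filter] at hσ
        rw [finrank_eq_zero_iff p pw h s σ hσ.2]
        exact h3 σ hσ.1 hσ.2
  refine ⟨fun V _ _ K p pw h => ⟨fun n hn => betti_eq K p pw h s n hn, betti_two K p pw h s,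
    main V K p pw h⟩, pts_general, fun hcon => ?_⟩
  have h1 := (main (Fin 3) triangle pts apex pts_general).mp (fun n hn => by
    rcases Nat.lt_or_ge n 3 with h4 | h4
    · exact betti_eq triangle pts apex pts_general s n (by omega)
    · have h5 : n = 3 := by omega
      subst h5
      exact hcon)
  exact pts_dep (h1 Finset.univ (Finset.mem_univ _) (by simp))

end Pool.Agent.Results.MP_9cf723_co.ConingBetti
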